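import Mathlib
import Pool.Agent.helper19.FR.Spec

/-!
# Row COR of project FR (MP_bf63dc_nt): the average of the correlations
-/

set_option autoImplicit false

namespace Pool.Agent.FR

open Finset Real Pool.Agent.AT Pool.Agent.OM Pool.Agent.helper85.FC

/-! ### Means -/

section mean

variable {α β : Type} [Fintype α] [Fintype β]

theorem COR_add (f g : α → ℝ) : mean (fun x => f x + g x) = mean f + mean g := by
  unfold mean
  rw [Finset.sum_add_distrib, add_div]

theorem COR_sub (f g : α → ℝ) : mean (fun x => f x - g x) = mean f - mean g := by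
  unfold mean
  rw [Finset.sum_sub_distrib, sub_div]

theorem COR_mul (c : ℝ) (f : α → ℝ) : mean (fun x => c * f x) = c * mean f := by
  unfold mean
  rw [← Finset.mul_sum, mul_div_assoc]

theorem COR_mul' (c : ℝ) (f : α → ℝ) : mean (fun x => f x * c) = mean f * c := by
  simp_rw [mul_comm _ c]
  exact COR_mul c f

theorem COR_le {f g : α → ℝ} (h : ∀ x, f x ≤ g x) : mean f ≤ mean g := by
  unfold mean
  exact div_le_div_of_nonneg_right (Finset.sum_le_sum fun x _ => h x) (Nat.cast_nonneg _)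

theorem COR_const [Nonempty α] (c : ℝ) : mean (fun _ : α => c) = c := by
  unfold mean
  rw [Finset.sum_const, Finset.card_univ, nsmul_eq_mul]
  have : (0 : ℝ) < Fintype.card α := by exact_mod_cast Fintype.card_pos
  field_simp

theorem COR_abs (f : α → ℝ) : |mean f| ≤ mean fun x => |f x| := by
  unfold mean
  rw [abs_div, abs_of_nonneg (Nat.cast_nonneg (Fintype.card α) : (0 : ℝ) ≤ _)]
  exact div_le_div_of_nonneg_right (Finset.abs_sum_le_sum_abs _ _) (Nat.cast_nonneg _)

theorem COR_sq (f : α → ℝ) : mean f ^ 2 ≤ mean fun x => f x ^ 2 := by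
  unfold mean
  rcases isEmpty_or_nonempty α with h | h
  · simp
  have h0 : (0 : ℝ) < Fintype.card α := by exact_mod_cast Fintype.card_pos
  have h1 := sq_sum_le_card_mul_sum_sq (s := (Finset.univ : Finset α)) (f := f)
  rw [Finset.card_univ] at h1
  rw [div_pow, div_le_div_iff₀ (by positivity) h0]
  calc (∑ x, f x) ^ 2 * (Fintype.card α : ℝ) ≤ ((Fintype.card α : ℝ) * ∑ x, f x ^ 2) * Fintype.card α :=
        mul_le_mul_of_nonneg_right h1 h0.le
    _ = (∑ x, f x ^ 2) * (Fintype.card α : ℝ) ^ 2 := by ring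

theorem COR_comm (f : α → β → ℝ) :
    (mean fun a => mean fun b => f a b) = mean fun b => mean fun a => f a b := by
  unfold mean
  rw [← Finset.sum_div, ← Finset.sum_div, Finset.sum_comm, div_div, div_div, mul_comm]

theorem COR_prod (f : α × β → ℝ) : mean f = mean fun a => mean fun b => f (a, b) := by
  unfold mean
  rw [← Finset.sum_div, Fintype.sum_prod_type, Fintype.card_prod, Nat.cast_mul, div_div, mul_comm]

theorem COR_swap (f : α × β → ℝ) : mean f = mean fun z : β × α => f (z.2, z.1) := by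
  rw [COR_prod, COR_comm, COR_prod]

theorem COR_sum {γ : Type} (s : Finset γ) (f : γ → α → ℝ) :
    mean (fun x => ∑ i ∈ s, f i x) = ∑ i ∈ s, mean (f i) := by
  unfold mean
  rw [Finset.sum_comm, Finset.sum_div]

end mean

/-! ### `corr` is linear in the kernel -/

section corr

variable {ι : Type} [Fintype ι] [DecidableEq ι] {H X : ℕ} (j : (ι × Fin H → Fin X) → ι × Fin H → ℝ) (i i' : ι)

theorem COR_corr_add (Q Q' : Fin X → Fin X → ℝ) :
    corr j i i' (fun x y => Q x y + Q' x y) = corr j i i' Q + corr j i i' Q' := by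
  unfold corr
  simp_rw [mul_add, COR_add]

theorem COR_corr_mul (c : ℝ) (Q : Fin X → Fin X → ℝ) :
    corr j i i' (fun x y => c * Q x y) = c * corr j i i' Q := by
  unfold corr
  rw [← COR_mul]
  congr 1
  funext ξ
  rw [← COR_mul]
  congr 1
  funext m
  rw [← COR_mul]
  congr 1
  funext m'
  ring

theorem COR_corr_sum {γ : Type} (s : Finset γ) (Q : γ → Fin X → Fin X → ℝ) :
    corr j i i' (fun x y => ∑ g ∈ s, Q g x y) = ∑ g ∈ s, corr j i i' (Q g) := by
  unfold corr
  simp_rw [Finset.mul_sum, COR_sum]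

end corr

/-! ### One half -/

theorem COR_half (hERR : ERR_stmt) {ι V : Type} [Fintype ι] [DecidableEq ι] [Fintype V] [Nonempty V] {H X n : ℕ}
    (j : (ι × Fin H → Fin X) → ι × Fin H → ℝ) (p p' : V → ι) (K : Fin X → Fin X → ℝ) {κ η q : ℝ} (e : Fin n → Fin X → ℝ)
    (Q : Fin X → Fin X → ℝ) (hH : 1 ≤ H) (hX : 1 ≤ X) (hj : ∀ ξ z, 0 ≤ j ξ z ∧ j ξ z ≤ 1) (hp : ∀ v, p v ≠ p' v)
    (hκ : 0 < κ) (hq : 0 ≤ q) (hker : ∀ x y, |mean (fun v => ker j (p v) x y) - K x y| ≤ η)
    (hE : Eig K κ e) (hQ : ∀ x y, |Q x y| ≤ q) (hort : ∀ y i, mean (fun x => Q x y * e i x) = 0)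
    (hQ2 : mean (fun z : Fin X × Fin X => Q z.1 z.2 ^ 2) ≤ 1) :
    |mean (fun v => corr j (p v) (p' v) Q)| ≤ √(κ + q ^ 2 * (η + 1 / H + 1 / √H)) := by
  have hne : Nonempty (Fin X) := ⟨⟨0, by omega⟩⟩
  set Ψ : Fin X × Fin X → ℝ := fun z => mean (fun y => Q z.1 y * Q z.2 y) with hΨ
  have hΨb : ∀ z, |Ψ z| ≤ q ^ 2 := by
    intro z
    calc |Ψ z| ≤ mean fun y => |Q z.1 y * Q z.2 y| := COR_abs _
      _ ≤ mean fun _ : Fin X => q ^ 2 := COR_le fun y => by
          rw [abs_mul, sq]
          exact mul_le_mul (hQ _ _) (hQ _ _) (abs_nonneg _) hq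
      _ = q ^ 2 := COR_const _
  have h1 : mean (fun v => corr j (p v) (p' v) Q) ^ 2 ≤
      mean (fun z : Fin X × Fin X => mean (fun v => ker j (p v) z.1 z.2) * Ψ z) + q ^ 2 * (1 / H + 1 / √H) := by
    calc mean (fun v => corr j (p v) (p' v) Q) ^ 2 ≤ mean fun v => corr j (p v) (p' v) Q ^ 2 := COR_sq _
      _ ≤ mean fun v => (mean (fun z : Fin X × Fin X => ker j (p v) z.1 z.2 * Ψ z) + q ^ 2 * (1 / H + 1 / √H)) :=
          COR_le fun v => hERR ι H X j (p v) (p' v) Q q hH hX hj (hp v) hq hQ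
      _ = mean (fun v => mean (fun z : Fin X × Fin X => ker j (p v) z.1 z.2 * Ψ z)) + q ^ 2 * (1 / H + 1 / √H) := by
          rw [COR_add, COR_const]
      _ = _ := by
          rw [COR_comm]
          simp_rw [COR_mul']
  have h2 : mean (fun z : Fin X × Fin X => mean (fun v => ker j (p v) z.1 z.2) * Ψ z) ≤
      mean (fun z : Fin X × Fin X => K z.1 z.2 * Ψ z) + η * q ^ 2 := by
    have h3 : mean (fun z : Fin X × Fin X => mean (fun v => ker j (p v) z.1 z.2) * Ψ z) -
        mean (fun z : Fin X × Fin X => K z.1 z.2 * Ψ z) ≤ η * q ^ 2 := by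
      rw [← COR_sub]
      calc mean (fun z : Fin X × Fin X => mean (fun v => ker j (p v) z.1 z.2) * Ψ z - K z.1 z.2 * Ψ z)
          ≤ mean fun _ : Fin X × Fin X => η * q ^ 2 := COR_le fun z => by
            rw [← sub_mul]
            refine (le_abs_self _).trans ?_
            rw [abs_mul]
            exact mul_le_mul (hker _ _) (hΨb z) (abs_nonneg _) ((abs_nonneg _).trans (hker z.1 z.2))
        _ = η * q ^ 2 := COR_const _
    linarith
  have h3 : mean (fun z : Fin X × Fin X => K z.1 z.2 * Ψ z) ≤ κ := by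
    have e1 : mean (fun z : Fin X × Fin X => K z.1 z.2 * Ψ z) =
        mean fun w => mean fun z : Fin X × Fin X => K z.1 z.2 * Q z.1 w * Q z.2 w := by
      rw [COR_comm]
      congr 1
      funext z
      rw [hΨ]
      simp only
      rw [← COR_mul]
      congr 1
      funext w
      ring
    rw [e1]
    calc (mean fun w => mean fun z : Fin X × Fin X => K z.1 z.2 * Q z.1 w * Q z.2 w)
        ≤ mean fun w => κ * mean (fun x => Q x w ^ 2) := COR_le fun w => hE.2.2 (fun x => Q x w) fun i => hort w i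
      _ = κ * mean (fun z : Fin X × Fin X => Q z.1 z.2 ^ 2) := by
          rw [COR_mul, COR_prod, COR_comm]
      _ ≤ κ * 1 := mul_le_mul_of_nonneg_left hQ2 hκ.le
      _ = κ := mul_one κ
  apply Real.abs_le_sqrt
  have h4 : q ^ 2 * (η + 1 / H + 1 / √H) = η * q ^ 2 + q ^ 2 * (1 / H + 1 / √H) := by ring
  rw [h4]
  linarith

theorem COR (hCSY : CSY_stmt) (hERR : ERR_stmt) (hMAI : MAI_stmt) (hPRJ : PRJ_stmt) : COR_stmt := by
  intro ι V _ _ _ _ H X n j p p' K κ η e B hH hX hj hp hκ hη hker hker' hE hB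
  have hnX : Nonempty (Fin X) := ⟨⟨0, by omega⟩⟩
  obtain ⟨Q₁, Q₂, hBQ, ho1, ho2, hb, hm1, hm2⟩ := hPRJ n X κ e B hX hκ hE.1 hE.2.1 hB
  set q : ℝ := (1 + n / κ) ^ 2 with hq
  have hq0 : 0 ≤ q := by positivity
  have hq2 : (1 + n / κ) ^ 4 = q ^ 2 := by rw [hq]; ring
  set β : Fin n → Fin n → ℝ := fun i l => mean (fun z : Fin X × Fin X => e i z.1 * e l z.2 * B z.1 z.2) with hβ
  have t1 := COR_half hERR j p p' K e Q₁ hH hX hj hp hκ hq0 hker hE (fun x y => (hb x y).1) ho1 hm1
  have t2 := COR_half hERR j p' p K e (fun x y => Q₂ y x) hH hX hj (fun v => (hp v).symm) hκ hq0 hker' hE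
    (fun x y => (hb y x).2) (fun y i => ho2 y i) (by
      rw [COR_swap]
      exact hm2)
  have t2' : mean (fun v => corr j (p' v) (p v) (fun x y => Q₂ y x)) = mean (fun v => corr j (p v) (p' v) Q₂) := by
    congr 1
    funext v
    rw [hCSY ι H X j (p v) (p' v) Q₂]
  rw [t2'] at t2
  have hcorr : ∀ v, corr j (p v) (p' v) B = corr j (p v) (p' v) Q₁ + corr j (p v) (p' v) Q₂ +
      ∑ i, ∑ l, β i l * corr j (p v) (p' v) (fun x y => e i x * e l y) := by
    intro v
    have h1 : B = fun x y => (Q₁ x y + Q₂ x y) + ∑ i, ∑ l, β i l * (e i x * e l y) := by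
      funext x y
      exact hBQ x y
    rw [h1, COR_corr_add, COR_corr_add, COR_corr_sum]
    congr 1
    refine Finset.sum_congr rfl fun i _ => ?_
    rw [COR_corr_sum]
    refine Finset.sum_congr rfl fun l _ => ?_
    rw [COR_corr_mul]
  simp_rw [hcorr]
  rw [COR_add, COR_add, COR_sum]
  have t3 : |∑ i, mean (fun v => ∑ l, β i l * corr j (p v) (p' v) (fun x y => e i x * e l y))| ≤ ∑ i, ∑ l, |β i l| := by
    refine (Finset.abs_sum_le_sum_abs _ _).trans (Finset.sum_le_sum fun i _ => ?_)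
    rw [COR_sum]
    refine (Finset.abs_sum_le_sum_abs _ _).trans (Finset.sum_le_sum fun l _ => ?_)
    rw [COR_mul, abs_mul]
    have h1 : |mean (fun v => corr j (p v) (p' v) (fun x y => e i x * e l y))| ≤ 1 := by
      calc |mean (fun v => corr j (p v) (p' v) (fun x y => e i x * e l y))|
          ≤ mean fun v => |corr j (p v) (p' v) (fun x y => e i x * e l y)| := COR_abs _
        _ ≤ mean fun _ : V => (1 : ℝ) := COR_le fun v => hMAI ι H X j (p v) (p' v) (e i) (e l) hH hX hj (hp v)
            (by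
              have := hE.1 i i
              rw [if_pos rfl] at this
              rw [← this]
              exact le_of_eq (by congr 1; funext x; ring))
            (by
              have := hE.1 l l
              rw [if_pos rfl] at this
              rw [← this]
              exact le_of_eq (by congr 1; funext x; ring))
        _ = 1 := COR_const _
    calc |β i l| * |mean (fun v => corr j (p v) (p' v) (fun x y => e i x * e l y))| ≤ |β i l| * 1 :=
          mul_le_mul_of_nonneg_left h1 (abs_nonneg _)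
      _ = |β i l| := mul_one _
  rw [hq2]
  calc _ ≤ |mean (fun v => corr j (p v) (p' v) Q₁) + mean (fun v => corr j (p v) (p' v) Q₂)| +
        |∑ i, mean (fun v => ∑ l, β i l * corr j (p v) (p' v) (fun x y => e i x * e l y))| := abs_add_le _ _
    _ ≤ (|mean (fun v => corr j (p v) (p' v) Q₁)| + |mean (fun v => corr j (p v) (p' v) Q₂)|) +
        |∑ i, mean (fun v => ∑ l, β i l * corr j (p v) (p' v) (fun x y => e i x * e l y))| :=
        add_le_add_left (abs_add_le _ _) _
    _ ≤ _ := by linarith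

end Pool.Agent.FR
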