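import Pool.Agent.helper93.FR.Spec

namespace Pool.Agent.helper93.FR

theorem Tc : Tc_stmt := by
  intro c _ _ t
  have h1 : ((Finset.univ : Finset (Finset c)).filter fun T => T.card ≤ t) ⊆
      (Finset.univ : Finset (Fin t → Option c)).image
        (fun f => Finset.eraseNone (Finset.univ.image f)) := by
    intro T hT
    have hT' : T.card ≤ t := (Finset.mem_filter.mp hT).2
    let e := T.equivFin
    refine Finset.mem_image.mpr ⟨fun i => if h : (i : ℕ) < T.card then
      some ((e.symm ⟨i, h⟩ : T) : c) else none, Finset.mem_univ _, ?_⟩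
    ext x
    rw [Finset.mem_eraseNone, Finset.mem_image]
    constructor
    · rintro ⟨i, -, hi⟩
      by_cases h : (i : ℕ) < T.card
      · rw [dif_pos h] at hi
        have := Option.some.inj hi
        rw [← this]
        exact (e.symm ⟨i, h⟩ : T).2
      · rw [dif_neg h] at hi
        exact absurd hi (by simp)
    · intro hx
      have hlt : ((e ⟨x, hx⟩ : Fin T.card) : ℕ) < T.card := (e ⟨x, hx⟩).2
      refine ⟨⟨(e ⟨x, hx⟩ : Fin T.card), lt_of_lt_of_le hlt hT'⟩, Finset.mem_univ _, ?_⟩
      rw [dif_pos hlt]
      simp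
  refine (Finset.card_le_card h1).trans (Finset.card_image_le.trans ?_)
  simp [Finset.card_univ]

end Pool.Agent.helper93.FR
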